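import Pool.Agent.W928.MW.Arc
import Pool.Agent.W225.MWDIO

set_option autoImplicit false

/-! Fourth moment of Weyl sums against a measure with a Fourier decay: the kernel. -/

open Finset MeasureTheory

namespace Pool.Agent.K9h98.FD

open Pool.Agent.W928.MW (e sm prs p Q p_sq Q_cont Q_nonneg e_cont)

/-- power sums -/
theorem sum_rpow_le (γ : ℝ) (hγ1 : γ < 1) (hγ0 : 0 ≤ γ) (N : ℕ) :
    ∑ a ∈ Icc 1 N, (a : ℝ) ^ (-γ) ≤ (N : ℝ) ^ (1 - γ) / (1 - γ) := by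
  have h1γ : 0 < 1 - γ := by linarith
  induction N with
  | zero =>
    simp
    positivity
  | succ n ih =>
    rw [Finset.sum_Icc_succ_top (by omega)]
    have hn0 : (0 : ℝ) < ((n + 1 : ℕ) : ℝ) := by positivity
    have hb := rpow_one_add_le_one_add_mul_self (s := -(1 / ((n + 1 : ℕ) : ℝ))) (p := 1 - γ) (by
      have : 1 / ((n + 1 : ℕ) : ℝ) ≤ 1 := by
        rw [div_le_one hn0]
        push_cast
        have : (0 : ℝ) ≤ n := Nat.cast_nonneg n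
        linarith
      linarith) h1γ.le (by linarith)
    have h2 : (n : ℝ) = ((n + 1 : ℕ) : ℝ) * (1 + -(1 / ((n + 1 : ℕ) : ℝ))) := by
      field_simp
      push_cast
      ring
    have h3 : 0 ≤ 1 + -(1 / ((n + 1 : ℕ) : ℝ)) := by
      have h4 : (0 : ℝ) ≤ ((n + 1 : ℕ) : ℝ) * (1 + -(1 / ((n + 1 : ℕ) : ℝ))) := by
        rw [← h2]; positivity
      exact nonneg_of_mul_nonneg_right h4 hn0
    have h5 : (n : ℝ) ^ (1 - γ) ≤ ((n + 1 : ℕ) : ℝ) ^ (1 - γ) - (1 - γ) * ((n + 1 : ℕ) : ℝ) ^ (-γ) := by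
      have h6 : ((n + 1 : ℕ) : ℝ) ^ (-γ) = ((n + 1 : ℕ) : ℝ) ^ (1 - γ) * (1 / ((n + 1 : ℕ) : ℝ)) := by
        rw [show -γ = (1 - γ) - 1 by ring, Real.rpow_sub_one hn0.ne']
        ring
      have h7 : 0 ≤ ((n + 1 : ℕ) : ℝ) ^ (1 - γ) := by positivity
      have h9 := mul_le_mul_of_nonneg_left hb h7
      have h8 : (n : ℝ) ^ (1 - γ) = ((n + 1 : ℕ) : ℝ) ^ (1 - γ) * (1 + -(1 / ((n + 1 : ℕ) : ℝ))) ^ (1 - γ) := by
        rw [← Real.mul_rpow hn0.le h3, ← h2]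
      rw [h8, h6]
      refine h9.trans (le_of_eq ?_)
      ring
    rw [le_div_iff₀ h1γ] at ih ⊢
    nlinarith

/-- the kernel of the nondiagonal terms -/
noncomputable def ker (k : ℕ) (β : ℝ) (x y z : ℕ) : ℝ :=
  if y ≠ x ∧ z ≠ x then
    |(x : ℝ) - (y : ℝ)| ^ (-β) * |(x : ℝ) - (z : ℝ)| ^ (-β) * (x : ℝ) ^ (-((k - 2 : ℕ) * β)) else 0

theorem ker_nonneg (k : ℕ) (β : ℝ) (x y z : ℕ) : 0 ≤ ker k β x y z := by
  unfold ker
  split_ifs
  · positivity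
  · exact le_refl _

theorem sum_ker (k : ℕ) (β : ℝ) (N : ℕ) :
    ∑ z ∈ (Icc 1 N) ×ˢ (Icc 1 N), ∑ w ∈ prs N (z.1 + z.2), ker k β z.1 w.1 w.2 ≤
    ∑ x ∈ Icc 1 N, ∑ w ∈ (Icc 1 N) ×ˢ (Icc 1 N), ker k β x w.1 w.2 := by
  rw [Finset.sum_product]
  apply Finset.sum_le_sum
  intro x _
  have h1 : ∑ x' ∈ Icc 1 N, ∑ w ∈ prs N (x + x'), ker k β x w.1 w.2 =
      ∑ w ∈ (Icc 1 N) ×ˢ (Icc 1 N), ∑ x' ∈ (Icc 1 N).filter (fun x' => w.1 + w.2 = x + x'), ker k β x w.1 w.2 := by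
    have e1 : ∀ x' ∈ Icc 1 N, ∑ w ∈ prs N (x + x'), ker k β x w.1 w.2 =
        ∑ w ∈ (Icc 1 N) ×ˢ (Icc 1 N), if w.1 + w.2 = x + x' then ker k β x w.1 w.2 else 0 := by
      intro x' _
      unfold prs
      rw [Finset.sum_filter]
    rw [Finset.sum_congr rfl e1, Finset.sum_comm]
    apply Finset.sum_congr rfl
    intro w _
    rw [Finset.sum_filter]
  rw [h1]
  apply Finset.sum_le_sum
  intro w _
  rw [Finset.sum_const, nsmul_eq_mul]
  have h3 : ((Icc 1 N).filter (fun x' => w.1 + w.2 = x + x')).card ≤ 1 := by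
    rw [Finset.card_le_one]
    intro a ha b hb
    rw [Finset.mem_filter] at ha hb
    omega
  have h4 : ((((Icc 1 N).filter (fun x' => w.1 + w.2 = x + x')).card : ℕ) : ℝ) ≤ 1 := by exact_mod_cast h3
  have h5 := ker_nonneg k β x w.1 w.2
  nlinarith

theorem sum_dist (β : ℝ) (N x : ℕ) (hx : x ∈ Icc 1 N) :
    ∑ y ∈ (Icc 1 N).filter (fun y => y ≠ x), |(x : ℝ) - (y : ℝ)| ^ (-β) ≤ 2 * ∑ a ∈ Icc 1 N, (a : ℝ) ^ (-β) := by
  rw [Finset.mem_Icc] at hx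
  have hsplit : (Icc 1 N).filter (fun y => y ≠ x) =
      (Icc 1 N).filter (fun y => y < x) ∪ (Icc 1 N).filter (fun y => x < y) := by
    ext y
    simp only [Finset.mem_filter, Finset.mem_union]
    constructor
    · rintro ⟨h1, h2⟩
      rcases Nat.lt_or_gt_of_ne h2 with h3 | h3
      · exact Or.inl ⟨h1, h3⟩
      · exact Or.inr ⟨h1, h3⟩
    · rintro (⟨h1, h2⟩ | ⟨h1, h2⟩)
      · exact ⟨h1, h2.ne⟩
      · exact ⟨h1, h2.ne'⟩
  have hdisj : Disjoint ((Icc 1 N).filter (fun y => y < x)) ((Icc 1 N).filter (fun y => x < y)) := by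
    rw [Finset.disjoint_left]
    intro y h1 h2
    rw [Finset.mem_filter] at h1 h2
    omega
  rw [hsplit, Finset.sum_union hdisj]
  have h1 : ∑ y ∈ (Icc 1 N).filter (fun y => y < x), |(x : ℝ) - (y : ℝ)| ^ (-β) ≤ ∑ a ∈ Icc 1 N, (a : ℝ) ^ (-β) := by
    have e1 : ∑ y ∈ (Icc 1 N).filter (fun y => y < x), |(x : ℝ) - (y : ℝ)| ^ (-β) =
        ∑ a ∈ ((Icc 1 N).filter (fun y => y < x)).image (fun y => x - y), (a : ℝ) ^ (-β) := by
      rw [Finset.sum_image]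
      · apply Finset.sum_congr rfl
        intro y hy
        rw [Finset.mem_filter] at hy
        rw [Nat.cast_sub hy.2.le, abs_of_nonneg]
        have : (y : ℝ) < x := by exact_mod_cast hy.2
        linarith
      · intro a ha b hb hab
        simp only [Finset.coe_filter, Set.mem_setOf_eq, Finset.mem_Icc] at ha hb
        simp only at hab
        omega
    rw [e1]
    apply Finset.sum_le_sum_of_subset_of_nonneg
    · intro a ha
      rw [Finset.mem_image] at ha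
      obtain ⟨y, hy, rfl⟩ := ha
      rw [Finset.mem_filter, Finset.mem_Icc] at hy
      rw [Finset.mem_Icc]
      omega
    · intro a _ _
      positivity
  have h2 : ∑ y ∈ (Icc 1 N).filter (fun y => x < y), |(x : ℝ) - (y : ℝ)| ^ (-β) ≤ ∑ a ∈ Icc 1 N, (a : ℝ) ^ (-β) := by
    have e1 : ∑ y ∈ (Icc 1 N).filter (fun y => x < y), |(x : ℝ) - (y : ℝ)| ^ (-β) =
        ∑ a ∈ ((Icc 1 N).filter (fun y => x < y)).image (fun y => y - x), (a : ℝ) ^ (-β) := by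
      rw [Finset.sum_image]
      · apply Finset.sum_congr rfl
        intro y hy
        rw [Finset.mem_filter] at hy
        rw [Nat.cast_sub hy.2.le, abs_sub_comm, abs_of_nonneg]
        have : (x : ℝ) < y := by exact_mod_cast hy.2
        linarith
      · intro a ha b hb hab
        simp only [Finset.coe_filter, Set.mem_setOf_eq, Finset.mem_Icc] at ha hb
        simp only at hab
        omega
    rw [e1]
    apply Finset.sum_le_sum_of_subset_of_nonneg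
    · intro a ha
      rw [Finset.mem_image] at ha
      obtain ⟨y, hy, rfl⟩ := ha
      rw [Finset.mem_filter, Finset.mem_Icc] at hy
      rw [Finset.mem_Icc]
      omega
    · intro a _ _
      positivity
  linarith

theorem sum_ker2 (k : ℕ) (β : ℝ) (N x : ℕ) (hx : x ∈ Icc 1 N) :
    ∑ w ∈ (Icc 1 N) ×ˢ (Icc 1 N), ker k β x w.1 w.2 ≤
      (2 * ∑ a ∈ Icc 1 N, (a : ℝ) ^ (-β)) ^ 2 * (x : ℝ) ^ (-((k - 2 : ℕ) * β)) := by
  have h1 : ∑ w ∈ (Icc 1 N) ×ˢ (Icc 1 N), ker k β x w.1 w.2 =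
      (∑ y ∈ (Icc 1 N).filter (fun y => y ≠ x), |(x : ℝ) - (y : ℝ)| ^ (-β)) ^ 2 *
        (x : ℝ) ^ (-((k - 2 : ℕ) * β)) := by
    rw [sq, Finset.sum_mul_sum, Finset.sum_product, Finset.sum_filter, Finset.sum_mul]
    apply Finset.sum_congr rfl
    intro y _
    by_cases hy : y ≠ x
    · rw [if_pos hy, Finset.sum_filter, Finset.sum_mul]
      apply Finset.sum_congr rfl
      intro z _
      unfold ker
      by_cases hz : z ≠ x
      · rw [if_pos ⟨hy, hz⟩, if_pos hz]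
      · rw [if_neg (fun h => hz h.2), if_neg hz, zero_mul]
    · rw [if_neg hy, zero_mul]
      apply Finset.sum_eq_zero
      intro z _
      unfold ker
      rw [if_neg (fun h => hy h.1)]
  rw [h1]
  apply mul_le_mul_of_nonneg_right _ (by positivity)
  apply pow_le_pow_left₀ (Finset.sum_nonneg fun y _ => by positivity)
  exact sum_dist β N x hx

/-- the sum of the kernel -/
theorem sum_ker3 (k : ℕ) (hk : 3 ≤ k) (β : ℝ) (hβ0 : 0 ≤ β) (hβ1 : k * β ≤ 1) : ∃ C : ℝ, 0 ≤ C ∧ ∀ N : ℕ, 1 ≤ N →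
    ∑ z ∈ (Icc 1 N) ×ˢ (Icc 1 N), ∑ w ∈ prs N (z.1 + z.2), ker k β z.1 w.1 w.2 ≤ C * (N : ℝ) ^ (3 - k * β) := by
  have hk3 : (3 : ℝ) ≤ k := by exact_mod_cast hk
  have hβ2 : β < 1 := by nlinarith
  have hkc : ((k - 2 : ℕ) : ℝ) = k - 2 := by
    rw [Nat.cast_sub (by omega)]; norm_num
  have hγ : ((k - 2 : ℕ) : ℝ) * β < 1 := by
    rw [hkc]
    rcases eq_or_lt_of_le hβ0 with h | h
    · rw [← h]; norm_num
    · nlinarith
  have hγ0 : 0 ≤ ((k - 2 : ℕ) : ℝ) * β := by positivity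
  refine ⟨(2 / (1 - β)) ^ 2 * (1 / (1 - ((k - 2 : ℕ) : ℝ) * β)), ?_, fun N hN => ?_⟩
  · have : 0 < 1 - ((k - 2 : ℕ) : ℝ) * β := by linarith
    positivity
  have hN0 : (0 : ℝ) < N := by exact_mod_cast hN
  have h1β : 0 < 1 - β := by linarith
  have h1γ : 0 < 1 - ((k - 2 : ℕ) : ℝ) * β := by linarith
  refine (sum_ker k β N).trans ?_
  refine (Finset.sum_le_sum fun x hx => sum_ker2 k β N x hx).trans ?_
  rw [← Finset.mul_sum]
  have h1 := sum_rpow_le β hβ2 hβ0 N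
  have h2 := sum_rpow_le (((k - 2 : ℕ) : ℝ) * β) hγ hγ0 N
  have h0 : 0 ≤ ∑ a ∈ Icc 1 N, (a : ℝ) ^ (-β) := Finset.sum_nonneg fun a _ => by positivity
  calc (2 * ∑ a ∈ Icc 1 N, (a : ℝ) ^ (-β)) ^ 2 * ∑ x ∈ Icc 1 N, (x : ℝ) ^ (-((k - 2 : ℕ) * β))
      ≤ (2 * ((N : ℝ) ^ (1 - β) / (1 - β))) ^ 2 *
        ((N : ℝ) ^ (1 - ((k - 2 : ℕ) : ℝ) * β) / (1 - ((k - 2 : ℕ) : ℝ) * β)) := by
        gcongr
    _ = (2 / (1 - β)) ^ 2 * (1 / (1 - ((k - 2 : ℕ) : ℝ) * β)) *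
        (((N : ℝ) ^ (1 - β)) ^ 2 * (N : ℝ) ^ (1 - ((k - 2 : ℕ) : ℝ) * β)) := by
        field_simp
    _ = _ := by
        congr 1
        rw [← Real.rpow_natCast, ← Real.rpow_mul hN0.le, ← Real.rpow_add hN0]
        congr 1
        rw [hkc]
        push_cast
        ring

end Pool.Agent.K9h98.FD
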