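import Pool.Agent.K9h98.FD.A

set_option autoImplicit false

/-! Fourth moment of weighted Weyl sums against a measure with a Fourier decay. -/

open Finset MeasureTheory

namespace Pool.Agent.K9h98.FD

open Pool.Agent.W928.MW (e prs e_cont e_norm e_add)

/-- the weighted Weyl sum -/
noncomputable def sm (c : ℕ → ℂ) (k N : ℕ) (t ξ : ℝ) : ℂ :=
  ∑ n ∈ Icc 1 N, c n * e (t * (n : ℝ) ^ k + ξ * (n : ℝ))

noncomputable def p (c : ℕ → ℂ) (k N m : ℕ) (t : ℝ) : ℂ :=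
  ∑ z ∈ prs N m, (c z.1 * c z.2) * e (t * ((z.1 : ℝ) ^ k + (z.2 : ℝ) ^ k))

noncomputable def Q (c : ℕ → ℂ) (k N : ℕ) (t : ℝ) : ℝ := ∑ m ∈ range (2 * N + 1), ‖p c k N m t‖ ^ 2

theorem p_cont (c : ℕ → ℂ) (k N m : ℕ) : Continuous (p c k N m) := by
  unfold p
  refine continuous_finsetSum _ (fun z _ => ?_)
  exact continuous_const.mul (e_cont.comp (by fun_prop))

theorem Q_cont (c : ℕ → ℂ) (k N : ℕ) : Continuous (Q c k N) := by
  unfold Q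
  refine continuous_finsetSum _ (fun m _ => ?_)
  exact ((p_cont c k N m).norm).pow 2

theorem Q_nonneg (c : ℕ → ℂ) (k N : ℕ) (t : ℝ) : 0 ≤ Q c k N t := by
  unfold Q
  positivity

theorem sm_sq (c : ℕ → ℂ) (k N : ℕ) (t ξ : ℝ) :
    sm c k N t ξ ^ 2 = ∑ m ∈ range (2 * N + 1), e (ξ * m) * p c k N m t := by
  have h1 : sm c k N t ξ ^ 2 = ∑ z ∈ (Icc 1 N) ×ˢ (Icc 1 N),
      e (ξ * ((z.1 + z.2 : ℕ) : ℝ)) * ((c z.1 * c z.2) * e (t * ((z.1 : ℝ) ^ k + (z.2 : ℝ) ^ k))) := by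
    rw [sq]
    unfold sm
    rw [Finset.sum_mul_sum, ← Finset.sum_product']
    apply Finset.sum_congr rfl
    intro z _
    have h2 : e (t * (z.1 : ℝ) ^ k + ξ * (z.1 : ℝ)) * e (t * (z.2 : ℝ) ^ k + ξ * (z.2 : ℝ)) =
        e (ξ * ((z.1 + z.2 : ℕ) : ℝ)) * e (t * ((z.1 : ℝ) ^ k + (z.2 : ℝ) ^ k)) := by
      rw [← e_add, ← e_add]
      congr 1
      push_cast
      ring
    calc c z.1 * e (t * (z.1 : ℝ) ^ k + ξ * (z.1 : ℝ)) * (c z.2 * e (t * (z.2 : ℝ) ^ k + ξ * (z.2 : ℝ)))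
        = (c z.1 * c z.2) * (e (t * (z.1 : ℝ) ^ k + ξ * (z.1 : ℝ)) * e (t * (z.2 : ℝ) ^ k + ξ * (z.2 : ℝ))) := by ring
      _ = _ := by rw [h2]; ring
  rw [h1, ← Finset.sum_fiberwise_of_maps_to (s := (Icc 1 N) ×ˢ (Icc 1 N)) (t := range (2 * N + 1))
    (g := fun z : ℕ × ℕ => z.1 + z.2)]
  · apply Finset.sum_congr rfl
    intro m _
    unfold p Pool.Agent.W928.MW.prs
    rw [Finset.mul_sum]
    apply Finset.sum_congr rfl
    intro z hz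
    rw [Finset.mem_filter] at hz
    rw [hz.2]
  · intro z hz
    rw [Finset.mem_product, Finset.mem_Icc, Finset.mem_Icc] at hz
    rw [Finset.mem_range]
    omega

theorem sup (c : ℕ → ℂ) (k N : ℕ) (t ξ : ℝ) : ‖sm c k N t ξ‖ ^ 4 ≤ (2 * (N : ℝ) + 1) * Q c k N t := by
  have h1 : ‖sm c k N t ξ‖ ^ 4 = ‖sm c k N t ξ ^ 2‖ ^ 2 := by
    rw [norm_pow]; ring
  rw [h1, sm_sq]
  have h2 : ‖∑ m ∈ range (2 * N + 1), e (ξ * m) * p c k N m t‖ ≤ ∑ m ∈ range (2 * N + 1), ‖p c k N m t‖ := by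
    refine (norm_sum_le _ _).trans (le_of_eq ?_)
    apply Finset.sum_congr rfl
    intro m _
    rw [norm_mul, e_norm, one_mul]
  have h3 := sq_sum_le_card_mul_sum_sq (s := range (2 * N + 1)) (f := fun m => ‖p c k N m t‖)
  rw [Finset.card_range] at h3
  have h4 : (((2 * N + 1 : ℕ) : ℝ)) = 2 * (N : ℝ) + 1 := by push_cast; ring
  rw [h4] at h3
  refine le_trans ?_ h3
  exact pow_le_pow_left₀ (norm_nonneg _) h2 2

theorem e_conj (x : ℝ) : (starRingEnd ℂ) (e x) = e (-x) := by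
  unfold Pool.Agent.W928.MW.e
  rw [← Complex.exp_conj]
  congr 1
  simp only [map_mul, Complex.conj_ofReal, Complex.conj_I, map_ofNat]
  push_cast
  ring

theorem p_sq (c : ℕ → ℂ) (k N m : ℕ) (t : ℝ) : ‖p c k N m t‖ ^ 2 = ∑ z ∈ prs N m, ∑ w ∈ prs N m,
    RCLike.re (((c z.1 * c z.2) * (starRingEnd ℂ) (c w.1 * c w.2)) *
      e ((((z.1 : ℝ) ^ k + (z.2 : ℝ) ^ k) - ((w.1 : ℝ) ^ k + (w.2 : ℝ) ^ k)) * t)) := by
  have h1 : ((‖p c k N m t‖ ^ 2 : ℝ) : ℂ) = p c k N m t * (starRingEnd ℂ) (p c k N m t) := by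
    rw [Complex.mul_conj, Complex.normSq_eq_norm_sq]
  have h2 : ‖p c k N m t‖ ^ 2 = (p c k N m t * (starRingEnd ℂ) (p c k N m t)).re := by
    rw [← h1, Complex.ofReal_re]
  rw [h2]
  unfold p
  rw [map_sum, Finset.sum_mul_sum, Complex.re_sum]
  apply Finset.sum_congr rfl
  intro z _
  rw [Complex.re_sum]
  apply Finset.sum_congr rfl
  intro w _
  show _ = (((c z.1 * c z.2) * (starRingEnd ℂ) (c w.1 * c w.2)) *
      e ((((z.1 : ℝ) ^ k + (z.2 : ℝ) ^ k) - ((w.1 : ℝ) ^ k + (w.2 : ℝ) ^ k)) * t)).re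
  congr 1
  have h3 : e ((((z.1 : ℝ) ^ k + (z.2 : ℝ) ^ k) - ((w.1 : ℝ) ^ k + (w.2 : ℝ) ^ k)) * t) =
      e (t * ((z.1 : ℝ) ^ k + (z.2 : ℝ) ^ k)) * (starRingEnd ℂ) (e (t * ((w.1 : ℝ) ^ k + (w.2 : ℝ) ^ k))) := by
    rw [e_conj, ← e_add]
    congr 1
    ring
  rw [h3, map_mul (starRingEnd ℂ) (c w.1 * c w.2)]
  ring

/-- the decay of the Fourier coefficients -/
def Dec (μ : Measure ℝ) (C β : ℝ) : Prop := ∀ m : ℕ, 1 ≤ m → ‖∫ t, e (m * t) ∂μ‖ ≤ C * (m : ℝ) ^ (-β)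

theorem e_int (μ : Measure ℝ) [IsFiniteMeasure μ] (x : ℝ) : Integrable (fun t : ℝ => e (x * t)) μ := by
  refine Integrable.mono' (integrable_const (1 : ℝ)) ?_ ?_
  · exact (e_cont.comp (by fun_prop)).aestronglyMeasurable
  · exact Filter.Eventually.of_forall fun t => (e_norm _).le

theorem int_dec (μ : Measure ℝ) [IsFiniteMeasure μ] (C β : ℝ) (hμ : Dec μ C β) (D : ℤ) (hD : D ≠ 0) :
    ‖∫ t, e ((D : ℝ) * t) ∂μ‖ ≤ C * |(D : ℝ)| ^ (-β) := by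
  have h2 : ((D.natAbs : ℕ) : ℝ) = |(D : ℝ)| := by
    rw [← Int.cast_natCast, Int.natCast_natAbs, Int.cast_abs]
  have h3 := hμ D.natAbs (Int.natAbs_pos.2 hD)
  rw [h2] at h3
  rcases abs_choice (D : ℝ) with h4 | h4
  · rw [h4] at h3 ⊢
    exact h3
  · have h5 : ∫ t, e ((D : ℝ) * t) ∂μ = (starRingEnd ℂ) (∫ t, e (|(D : ℝ)| * t) ∂μ) := by
      rw [← integral_conj]
      congr 1
      funext t
      rw [e_conj, h4]
      congr 1
      ring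
    rw [h5, RCLike.norm_conj]
    exact h3

theorem int_le (μ : Measure ℝ) [IsFiniteMeasure μ] (x : ℝ) : ‖∫ t, e (x * t) ∂μ‖ ≤ μ.real Set.univ := by
  refine (norm_integral_le_integral_norm _).trans (le_of_eq ?_)
  have : (fun t : ℝ => ‖e (x * t)‖) = fun _ => (1 : ℝ) := by
    funext t
    exact e_norm _
  rw [this, integral_const]
  simp

theorem term_le (μ : Measure ℝ) [IsFiniteMeasure μ] (C β : ℝ) (hC : 0 ≤ C) (hβ : 0 ≤ β) (hμ : Dec μ C β)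
    (k N : ℕ) (hk3 : 3 ≤ k) (z w : ℕ × ℕ)
    (hz : z ∈ (Icc 1 N) ×ˢ (Icc 1 N)) (hw : w ∈ prs N (z.1 + z.2)) :
    ‖∫ t, e ((((z.1 : ℝ) ^ k + (z.2 : ℝ) ^ k) - ((w.1 : ℝ) ^ k + (w.2 : ℝ) ^ k)) * t) ∂μ‖ ≤
      (if w = z then μ.real Set.univ else 0) + (if w = (z.2, z.1) then μ.real Set.univ else 0) +
        C * ker k β z.1 w.1 w.2 := by
  unfold Pool.Agent.W928.MW.prs at hw
  rw [Finset.mem_filter, Finset.mem_product, Finset.mem_Icc, Finset.mem_Icc] at hw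
  rw [Finset.mem_product, Finset.mem_Icc, Finset.mem_Icc] at hz
  obtain ⟨⟨⟨hw1, hw2⟩, hw3, hw4⟩, hw5⟩ := hw
  obtain ⟨⟨hz1, hz2⟩, hz3, hz4⟩ := hz
  have hM : 0 ≤ μ.real Set.univ := measureReal_nonneg
  have hn := mul_nonneg hC (ker_nonneg k β z.1 w.1 w.2)
  have e1 : (0:ℝ) ≤ (if w = z then μ.real Set.univ else 0) := by split_ifs <;> linarith
  have e2 : (0:ℝ) ≤ (if w = (z.2, z.1) then μ.real Set.univ else 0) := by split_ifs <;> linarith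
  by_cases c1 : w.1 = z.1
  · have c2 : w = z := by
      ext
      · exact c1
      · omega
    have := int_le μ (((z.1 : ℝ) ^ k + (z.2 : ℝ) ^ k) - ((w.1 : ℝ) ^ k + (w.2 : ℝ) ^ k))
    rw [if_pos c2]
    linarith
  by_cases c3 : w.2 = z.1
  · have c4 : w = (z.2, z.1) := by
      ext
      · simp only; omega
      · exact c3
    have := int_le μ (((z.1 : ℝ) ^ k + (z.2 : ℝ) ^ k) - ((w.1 : ℝ) ^ k + (w.2 : ℝ) ^ k))
    rw [if_pos c4]
    linarith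
  have hd := Pool.Agent.W225.MWD.t k z.1 z.2 w.1 w.2 (by omega) hw5.symm
  have hz1' : (1 : ℝ) ≤ (z.1 : ℝ) := by exact_mod_cast hz1
  have hz0 : (0 : ℝ) < (z.1 : ℝ) := by linarith
  have a1 : 0 < |(z.1 : ℝ) - (w.1 : ℝ)| := by
    rw [abs_pos, sub_ne_zero]
    intro h
    exact c1 (by exact_mod_cast h.symm)
  have a2 : 0 < |(z.1 : ℝ) - (w.2 : ℝ)| := by
    rw [abs_pos, sub_ne_zero]
    intro h
    exact c3 (by exact_mod_cast h.symm)
  have a3 : (z.1 : ℝ) ^ (k - 2) ≤ (max (max (z.1 : ℝ) (z.2 : ℝ)) (max (w.1 : ℝ) (w.2 : ℝ))) ^ (k - 2) :=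
    pow_le_pow_left₀ hz0.le ((le_max_left _ _).trans (le_max_left _ _)) _
  have a4 : |(z.1 : ℝ) - (w.1 : ℝ)| * |(z.1 : ℝ) - (w.2 : ℝ)| * (z.1 : ℝ) ^ (k - 2) ≤
      |((z.1 : ℝ) ^ k + (z.2 : ℝ) ^ k) - ((w.1 : ℝ) ^ k + (w.2 : ℝ) ^ k)| := by
    have b2 : (z.1 : ℝ) ^ k + (z.2 : ℝ) ^ k - (w.1 : ℝ) ^ k - (w.2 : ℝ) ^ k =
        ((z.1 : ℝ) ^ k + (z.2 : ℝ) ^ k) - ((w.1 : ℝ) ^ k + (w.2 : ℝ) ^ k) := by ring
    rw [b2] at hd
    exact (mul_le_mul_of_nonneg_left a3 (by positivity)).trans hd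
  have a5 : 0 < |(z.1 : ℝ) - (w.1 : ℝ)| * |(z.1 : ℝ) - (w.2 : ℝ)| * (z.1 : ℝ) ^ (k - 2) := by positivity
  obtain ⟨D, hD⟩ : ∃ D : ℤ, D = ((z.1 : ℤ) ^ k + (z.2 : ℤ) ^ k) - ((w.1 : ℤ) ^ k + (w.2 : ℤ) ^ k) := ⟨_, rfl⟩
  have hDr : ((z.1 : ℝ) ^ k + (z.2 : ℝ) ^ k) - ((w.1 : ℝ) ^ k + (w.2 : ℝ) ^ k) = (D : ℝ) := by
    rw [hD]; push_cast; ring
  rw [hDr] at a4 ⊢
  have a6 : D ≠ 0 := by
    intro h
    rw [h, Int.cast_zero, abs_zero] at a4
    linarith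
  have a7 := int_dec μ C β hμ D a6
  have a8 : ker k β z.1 w.1 w.2 = (|(z.1 : ℝ) - (w.1 : ℝ)| * |(z.1 : ℝ) - (w.2 : ℝ)| * (z.1 : ℝ) ^ (k - 2)) ^ (-β) := by
    unfold ker
    rw [if_pos ⟨c1, c3⟩, Real.mul_rpow (by positivity) (by positivity), Real.mul_rpow a1.le a2.le]
    congr 1
    rw [← Real.rpow_natCast, ← Real.rpow_mul hz0.le]
    congr 1
    ring
  have a9 : |(D : ℝ)| ^ (-β) ≤ ker k β z.1 w.1 w.2 := by
    rw [a8]
    exact Real.rpow_le_rpow_of_nonpos a5 a4 (by linarith)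
  have a10 := mul_le_mul_of_nonneg_left a9 hC
  linarith

theorem re_integrable (μ : Measure ℝ) [IsFiniteMeasure μ] (a : ℂ) (x : ℝ) :
    Integrable (fun t : ℝ => (RCLike.re (a * e (x * t)) : ℝ)) μ := ((e_int μ x).const_mul a).re

theorem Q_form (c : ℕ → ℂ) (k N : ℕ) : Q c k N = fun t => ∑ m ∈ range (2 * N + 1), ∑ z ∈ prs N m, ∑ w ∈ prs N m,
    (RCLike.re (((c z.1 * c z.2) * (starRingEnd ℂ) (c w.1 * c w.2)) *
      e ((((z.1 : ℝ) ^ k + (z.2 : ℝ) ^ k) - ((w.1 : ℝ) ^ k + (w.2 : ℝ) ^ k)) * t)) : ℝ) := by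
  funext t
  unfold Q
  apply Finset.sum_congr rfl
  intro m _
  exact p_sq c k N m t

theorem Q_integrable (μ : Measure ℝ) [IsFiniteMeasure μ] (c : ℕ → ℂ) (k N : ℕ) : Integrable (Q c k N) μ := by
  rw [Q_form]
  exact integrable_finsetSum _ (fun m _ => integrable_finsetSum _ (fun z _ =>
      integrable_finsetSum _ (fun w _ => re_integrable μ _ _)))

theorem Q_integral (μ : Measure ℝ) [IsFiniteMeasure μ] (c : ℕ → ℂ) (hc : ∀ n, ‖c n‖ ≤ 1) (k N : ℕ) :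
    ∫ t, Q c k N t ∂μ ≤
      ∑ z ∈ (Icc 1 N) ×ˢ (Icc 1 N), ∑ w ∈ prs N (z.1 + z.2),
      ‖∫ t, e ((((z.1 : ℝ) ^ k + (z.2 : ℝ) ^ k) - ((w.1 : ℝ) ^ k + (w.2 : ℝ) ^ k)) * t) ∂μ‖ := by
  have h1 : ∫ t, Q c k N t ∂μ ≤ ∑ m ∈ range (2 * N + 1), ∑ z ∈ prs N m, ∑ w ∈ prs N m,
      ‖∫ t, e ((((z.1 : ℝ) ^ k + (z.2 : ℝ) ^ k) - ((w.1 : ℝ) ^ k + (w.2 : ℝ) ^ k)) * t) ∂μ‖ := by
    rw [Q_form, integral_finsetSum]
    · apply Finset.sum_le_sum
      intro m _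
      rw [integral_finsetSum]
      · apply Finset.sum_le_sum
        intro z _
        rw [integral_finsetSum]
        · apply Finset.sum_le_sum
          intro w _
          rw [integral_re ((e_int μ _).const_mul _), integral_const_mul]
          refine (Complex.re_le_norm _).trans ?_
          rw [norm_mul, norm_mul, norm_mul, RCLike.norm_conj, norm_mul]
          have g1 := mul_le_mul (hc z.1) (hc z.2) (norm_nonneg _) zero_le_one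
          have g2 := mul_le_mul (hc w.1) (hc w.2) (norm_nonneg _) zero_le_one
          rw [mul_one] at g1 g2
          have g3 := mul_le_mul g1 g2 (by positivity) zero_le_one
          rw [mul_one] at g3
          exact mul_le_of_le_one_left (norm_nonneg _) g3
        · intro w _
          exact re_integrable μ _ _
      · intro z _
        exact integrable_finsetSum _ (fun w _ => re_integrable μ _ _)
    · intro m _
      exact integrable_finsetSum _ (fun z _ => integrable_finsetSum _ (fun w _ => re_integrable μ _ _))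
  refine h1.trans (le_of_eq ?_)
  rw [← Finset.sum_fiberwise_of_maps_to (s := (Icc 1 N) ×ˢ (Icc 1 N)) (t := range (2 * N + 1))
    (g := fun z : ℕ × ℕ => z.1 + z.2)]
  · apply Finset.sum_congr rfl
    intro m _
    apply Finset.sum_congr rfl
    intro z hz
    unfold Pool.Agent.W928.MW.prs at hz
    rw [Finset.mem_filter] at hz
    rw [hz.2]
  · intro z hz
    rw [Finset.mem_product, Finset.mem_Icc, Finset.mem_Icc] at hz
    rw [Finset.mem_range]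
    omega

/-- the fourth moment -/
theorem moment (μ : Measure ℝ) [IsFiniteMeasure μ] (C β : ℝ) (hβ : 0 ≤ β) (hμ : Dec μ C β)
    (k : ℕ) (hk3 : 3 ≤ k) (hkβ : k * β ≤ 1) : ∃ A : ℝ, 0 ≤ A ∧ ∀ c : ℕ → ℂ, (∀ n, ‖c n‖ ≤ 1) → ∀ N : ℕ, 1 ≤ N →
    ∫ t, Q c k N t ∂μ ≤ A * (N : ℝ) ^ (3 - k * β) := by
  obtain ⟨K, hK0, hK⟩ := sum_ker3 k hk3 β hβ hkβ
  have hM : 0 ≤ μ.real Set.univ := measureReal_nonneg
  have hμ' : Dec μ |C| β := fun m hm => (hμ m hm).trans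
    (mul_le_mul_of_nonneg_right (le_abs_self C) (by positivity))
  refine ⟨2 * μ.real Set.univ + |C| * K, by positivity, fun c hc N hN => ?_⟩
  have hN1 : (1 : ℝ) ≤ N := by exact_mod_cast hN
  refine (Q_integral μ c hc k N).trans ?_
  have h3 : ∑ z ∈ (Icc 1 N) ×ˢ (Icc 1 N), ∑ w ∈ prs N (z.1 + z.2),
      ‖∫ t, e ((((z.1 : ℝ) ^ k + (z.2 : ℝ) ^ k) - ((w.1 : ℝ) ^ k + (w.2 : ℝ) ^ k)) * t) ∂μ‖ ≤
      ∑ z ∈ (Icc 1 N) ×ˢ (Icc 1 N), ∑ w ∈ prs N (z.1 + z.2),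
      ((if w = z then μ.real Set.univ else 0) + (if w = (z.2, z.1) then μ.real Set.univ else 0) +
        |C| * ker k β z.1 w.1 w.2) := by
    apply Finset.sum_le_sum
    intro z hz
    apply Finset.sum_le_sum
    intro w hw
    exact term_le μ |C| β (abs_nonneg C) hβ hμ' k N hk3 z w hz hw
  refine h3.trans ?_
  have h4 : ∀ z ∈ (Icc 1 N) ×ˢ (Icc 1 N), ∑ w ∈ prs N (z.1 + z.2),
      ((if w = z then μ.real Set.univ else 0) + (if w = (z.2, z.1) then μ.real Set.univ else 0) +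
        |C| * ker k β z.1 w.1 w.2) ≤
      2 * μ.real Set.univ + |C| * ∑ w ∈ prs N (z.1 + z.2), ker k β z.1 w.1 w.2 := by
    intro z _
    rw [Finset.sum_add_distrib, Finset.sum_add_distrib, Finset.mul_sum]
    have b1 : ∑ w ∈ prs N (z.1 + z.2), (if w = z then μ.real Set.univ else 0) ≤ μ.real Set.univ := by
      rw [Finset.sum_ite_eq']
      split_ifs <;> linarith
    have b2 : ∑ w ∈ prs N (z.1 + z.2), (if w = (z.2, z.1) then μ.real Set.univ else 0) ≤ μ.real Set.univ := by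
      rw [Finset.sum_ite_eq']
      split_ifs <;> linarith
    linarith
  refine (Finset.sum_le_sum h4).trans ?_
  rw [Finset.sum_add_distrib, Finset.sum_const, Finset.card_product, Nat.card_Icc, nsmul_eq_mul, ← Finset.mul_sum]
  have h5 := hK N hN
  have h6 : (((N + 1 - 1) * (N + 1 - 1) : ℕ) : ℝ) = (N : ℝ) ^ 2 := by
    rw [Nat.add_sub_cancel]; push_cast; ring
  rw [h6]
  have h7 : (N : ℝ) ^ 2 ≤ (N : ℝ) ^ (3 - k * β) := by
    rw [← Real.rpow_natCast]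
    apply Real.rpow_le_rpow_of_exponent_le hN1
    push_cast
    linarith
  calc (N : ℝ) ^ 2 * (2 * μ.real Set.univ) +
        |C| * ∑ z ∈ (Icc 1 N) ×ˢ (Icc 1 N), ∑ w ∈ prs N (z.1 + z.2), ker k β z.1 w.1 w.2
      ≤ (N : ℝ) ^ (3 - k * β) * (2 * μ.real Set.univ) + |C| * (K * (N : ℝ) ^ (3 - k * β)) := by
        gcongr
    _ = _ := by ring

end Pool.Agent.K9h98.FD
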