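import Pool.Agent.K9h98.FD.B
import Pool.Agent.TH181.MW.Max

set_option autoImplicit false

/-! Weighted Weyl sums at almost all points for a measure with a Fourier decay. -/

open Finset MeasureTheory

namespace Pool.Agent.K9h98.FD

open Pool.Agent.W928.MW (e prs e_cont e_norm e_add ev_pow ev_log)

theorem sm_le (w : ℕ → ℂ) (hw : ∀ n, ‖w n‖ ≤ 1) (k N : ℕ) (t ξ : ℝ) : ‖sm w k N t ξ‖ ≤ N := by
  unfold sm
  refine (norm_sum_le _ _).trans ?_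
  calc ∑ n ∈ Icc 1 N, ‖w n * e (t * (n : ℝ) ^ k + ξ * (n : ℝ))‖ ≤ ∑ n ∈ Icc 1 N, (1 : ℝ) := by
        apply Finset.sum_le_sum
        intro n _
        rw [norm_mul, e_norm, mul_one]
        exact hw n
    _ = N := by rw [Finset.sum_const, Nat.card_Icc, Nat.add_sub_cancel, nsmul_eq_mul, mul_one]

theorem sm_max (w : ℕ → ℂ) (k N M : ℕ) (t K : ℝ) (hN : 1 ≤ N) (hM : M ≤ N) (h : ∀ η : ℝ, ‖sm w k N t η‖ ≤ K)
    (ξ : ℝ) : ‖sm w k M t ξ‖ ≤ (4 + 4 * Real.log N) * K := by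
  have hN' : (1 : ℝ) ≤ N := by exact_mod_cast hN
  have hK0 : 0 ≤ K := (norm_nonneg _).trans (h 0)
  have hf : ∀ (M' : ℕ) (ξ' : ℝ), sm w k M' t ξ' = ∑ n ∈ Icc 1 M', (w n * e (t * (n : ℝ) ^ k)) * e (ξ' * n) := by
    intro M' ξ'
    unfold sm
    refine Finset.sum_congr rfl (fun n _ => ?_)
    rw [e_add, mul_assoc]
  have h1 := Pool.Agent.TH181.MW.max_le N M hN hM (fun n => w n * e (t * (n : ℝ) ^ k)) K (fun η => by
    have := h η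
    rwa [hf] at this) ξ
  rw [← hf] at h1
  refine h1.trans ?_
  apply mul_le_mul_of_nonneg_right _ hK0
  have := Real.log_nonneg hN'
  linarith

/-- the exceptional real numbers at the scale `2 ^ i` -/
def Bad (w : ℕ → ℂ) (k : ℕ) (c : ℝ) (i : ℕ) : Set ℝ :=
  {t : ℝ | ∃ M : ℕ, M ≤ 2 ^ i ∧ 2 ^ i ≤ 2 * M ∧ ∃ ξ : ℝ, (M : ℝ) ^ c < ‖sm w k M t ξ‖}

/-- large fourth moments -/
def Gd (w : ℕ → ℂ) (k : ℕ) (d : ℝ) (i : ℕ) : Set ℝ :=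
  {t : ℝ | ((2 : ℝ) ^ i) ^ (4 * d) ≤ (2 * (2 : ℝ) ^ i + 1) * Q w k (2 ^ i) t}

theorem bad_sub (w : ℕ → ℂ) (k : ℕ) (c ε : ℝ) (hc : 0 < c) (hε : 0 < ε) :
    ∃ i0 : ℕ, ∀ i : ℕ, i0 ≤ i → Bad w k c i ⊆ Gd w k (c - ε) i := by
  obtain ⟨i1, h1⟩ := ev_log ε hε ((2 : ℝ) ^ c)
  refine ⟨i1, fun i hi => ?_⟩
  have g1 := h1 i hi
  rintro t ⟨M, hM1, hM2, ξ, hξ⟩
  obtain ⟨X, hX⟩ : ∃ X : ℝ, X = (2 : ℝ) ^ i := ⟨_, rfl⟩
  have hX1 : (1 : ℝ) ≤ X := by rw [hX]; exact one_le_pow₀ (by norm_num)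
  have hX0 : (0 : ℝ) < X := by linarith
  have hNX : (((2 ^ i : ℕ) : ℕ) : ℝ) = X := by rw [hX]; push_cast; rfl
  show ((2 : ℝ) ^ i) ^ (4 * (c - ε)) ≤ (2 * (2 : ℝ) ^ i + 1) * Q w k (2 ^ i) t
  rw [← hX] at g1 ⊢
  by_contra hcon
  push Not at hcon
  have h2 : ∀ ξ' : ℝ, ‖sm w k (2 ^ i) t ξ'‖ ≤ X ^ (c - ε) := by
    intro ξ'
    have h3 := sup w k (2 ^ i) t ξ'
    rw [hNX] at h3
    have h4 : X ^ (4 * (c - ε)) = (X ^ (c - ε)) ^ 4 := by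
      rw [← Real.rpow_natCast, ← Real.rpow_mul hX0.le]
      congr 1
      push_cast
      ring
    rw [h4] at hcon
    exact (lt_of_pow_lt_pow_left₀ 4 (by positivity) (lt_of_le_of_lt h3 hcon)).le
  have h3 := sm_max w k (2 ^ i) M t (X ^ (c - ε)) Nat.one_le_two_pow hM1 h2 ξ
  rw [hNX] at h3
  have h5 : (X / 2) ^ c ≤ (M : ℝ) ^ c := by
    apply Real.rpow_le_rpow (by positivity) _ hc.le
    have : ((2 ^ i : ℕ) : ℝ) ≤ ((2 * M : ℕ) : ℝ) := by exact_mod_cast hM2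
    rw [hNX] at this
    push_cast at this
    linarith
  have h6 : (X / 2) ^ c = X ^ c / (2 : ℝ) ^ c := Real.div_rpow hX0.le (by norm_num) c
  have h7 : (4 + 4 * Real.log X) * X ^ (c - ε) ≤ X ^ c / (2 : ℝ) ^ c := by
    rw [le_div_iff₀ (by positivity)]
    have h8 : X ^ c = X ^ ε * X ^ (c - ε) := by
      rw [← Real.rpow_add hX0]
      congr 1
      ring
    rw [h8]
    calc (4 + 4 * Real.log X) * X ^ (c - ε) * (2 : ℝ) ^ c =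
          ((2 : ℝ) ^ c * (4 + 4 * Real.log X)) * X ^ (c - ε) := by ring
      _ ≤ X ^ ε * X ^ (c - ε) := mul_le_mul_of_nonneg_right g1 (by positivity)
  have h9 : (M : ℝ) ^ c < (M : ℝ) ^ c := by
    calc (M : ℝ) ^ c < ‖sm w k M t ξ‖ := hξ
      _ ≤ (4 + 4 * Real.log X) * X ^ (c - ε) := h3
      _ ≤ X ^ c / (2 : ℝ) ^ c := h7
      _ = (X / 2) ^ c := h6.symm
      _ ≤ (M : ℝ) ^ c := h5
  exact lt_irrefl _ h9

theorem meas_G (μ : Measure ℝ) [IsFiniteMeasure μ] (w : ℕ → ℂ) (k : ℕ) (d A E : ℝ)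
    (hA : ∀ N : ℕ, 1 ≤ N → ∫ t, Q w k N t ∂μ ≤ A * (N : ℝ) ^ E) (i : ℕ) :
    μ (Gd w k d i) ≤ ENNReal.ofReal (3 * A * ((2 : ℝ) ^ i) ^ (E + 1 - 4 * d)) := by
  obtain ⟨X, hX⟩ : ∃ X : ℝ, X = (2 : ℝ) ^ i := ⟨_, rfl⟩
  have hX1 : (1 : ℝ) ≤ X := by rw [hX]; exact one_le_pow₀ (by norm_num)
  have hX0 : (0 : ℝ) < X := by linarith
  have hNX : (((2 ^ i : ℕ) : ℕ) : ℝ) = X := by rw [hX]; push_cast; rfl
  have h0 := hA (2 ^ i) Nat.one_le_two_pow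
  rw [hNX] at h0
  unfold Gd
  rw [← hX]
  have hI0 : 0 ≤ ∫ t, Q w k (2 ^ i) t ∂μ := integral_nonneg (Q_nonneg w k (2 ^ i))
  obtain ⟨ρ, hρ⟩ : ∃ ρ : ℝ, ρ = X ^ (4 * d) / (2 * X + 1) := ⟨_, rfl⟩
  have hX3 : (0 : ℝ) < 2 * X + 1 := by positivity
  have hρ0 : 0 < ρ := by rw [hρ]; positivity
  have hset : {t : ℝ | X ^ (4 * d) ≤ (2 * X + 1) * Q w k (2 ^ i) t} = {t : ℝ | ρ ≤ Q w k (2 ^ i) t} := by
    ext t
    show X ^ (4 * d) ≤ (2 * X + 1) * Q w k (2 ^ i) t ↔ ρ ≤ Q w k (2 ^ i) t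
    rw [hρ, div_le_iff₀ hX3, mul_comm (2 * X + 1)]
  rw [hset]
  have h3 := mul_meas_ge_le_integral_of_nonneg (μ := μ) (f := Q w k (2 ^ i))
    (Filter.Eventually.of_forall (Q_nonneg w k (2 ^ i))) (Q_integrable μ w k (2 ^ i)) ρ
  rw [← ofReal_measureReal (measure_ne_top μ _)]
  apply ENNReal.ofReal_le_ofReal
  have h4 : μ.real {t : ℝ | ρ ≤ Q w k (2 ^ i) t} ≤ (A * X ^ E) / ρ := by
    rw [le_div_iff₀ hρ0]
    calc μ.real {t : ℝ | ρ ≤ Q w k (2 ^ i) t} * ρ = ρ * μ.real {t : ℝ | ρ ≤ Q w k (2 ^ i) t} := by ring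
      _ ≤ _ := h3.trans h0
  refine h4.trans ?_
  have hA0 : 0 ≤ A := by
    have : 0 ≤ A * X ^ E := hI0.trans h0
    exact nonneg_of_mul_nonneg_left this (by positivity)
  have h5 : (A * X ^ E) / ρ = A * (2 * X + 1) * (X ^ E / X ^ (4 * d)) := by
    rw [hρ]; field_simp
  rw [h5]
  calc A * (2 * X + 1) * (X ^ E / X ^ (4 * d)) ≤ A * (3 * X) * (X ^ E / X ^ (4 * d)) := by
        gcongr; linarith
    _ = 3 * A * (X ^ E * X ^ (1 : ℝ) / X ^ (4 * d)) := by rw [Real.rpow_one]; ring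
    _ = _ := by rw [← Real.rpow_add hX0, ← Real.rpow_sub hX0]

theorem ae_bad (μ : Measure ℝ) [IsFiniteMeasure μ] (w : ℕ → ℂ) (k : ℕ) (c ε A E : ℝ) (hc : 0 < c) (hε : 0 < ε)
    (hA : ∀ N : ℕ, 1 ≤ N → ∫ t, Q w k N t ∂μ ≤ A * (N : ℝ) ^ E) (hE : E + 1 < 4 * (c - ε)) :
    ∀ᵐ t ∂μ, ∃ i0 : ℕ, ∀ i : ℕ, i0 ≤ i → t ∉ Bad w k c i := by
  have h1 : ∑' i, μ (Gd w k (c - ε) i) ≠ ⊤ := by
    have hs : Summable (fun i : ℕ => 3 * A * ((2 : ℝ) ^ i) ^ (E + 1 - 4 * (c - ε))) := by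
      apply Summable.mul_left
      have h2 : (fun i : ℕ => ((2 : ℝ) ^ i) ^ (E + 1 - 4 * (c - ε))) =
          fun i : ℕ => ((2 : ℝ) ^ (E + 1 - 4 * (c - ε))) ^ i := by
        funext i
        rw [← Real.rpow_natCast, ← Real.rpow_mul (by norm_num), mul_comm, Real.rpow_mul (by norm_num),
          Real.rpow_natCast]
      rw [h2]
      apply summable_geometric_of_lt_one (by positivity)
      exact Real.rpow_lt_one_of_one_lt_of_neg (by norm_num) (by linarith)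
    exact ne_top_of_le_ne_top hs.tsum_ofReal_ne_top (ENNReal.tsum_le_tsum fun i => meas_G μ w k (c - ε) A E hA i)
  obtain ⟨i0, hi0⟩ := bad_sub w k c ε hc hε
  filter_upwards [ae_eventually_notMem h1] with t ht
  rw [Filter.eventually_atTop] at ht
  obtain ⟨i1, hi1⟩ := ht
  refine ⟨i0 + i1, fun i hi hb => ?_⟩
  exact hi1 i (by omega) (hi0 i (by omega) hb)

/-- numbers which are exceptional at finitely many scales -/
theorem flat_of (w : ℕ → ℂ) (hw : ∀ n, ‖w n‖ ≤ 1) (k : ℕ) (c : ℝ) (hc : 0 < c) (t : ℝ)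
    (hcon : ∃ i0 : ℕ, ∀ i : ℕ, i0 ≤ i → t ∉ Bad w k c i) :
    ∃ C : ℝ, ∀ N : ℕ, 1 ≤ N → ∀ ξ : ℝ, ‖sm w k N t ξ‖ ≤ C * (N : ℝ) ^ c := by
  obtain ⟨i1, hcon⟩ := hcon
  refine ⟨(2 : ℝ) ^ i1 + 1, fun N hN ξ => ?_⟩
  have hN1 : (1 : ℝ) ≤ N := by exact_mod_cast hN
  have hNc : (1 : ℝ) ≤ (N : ℝ) ^ c := Real.one_le_rpow hN1 hc.le
  have hp : (0 : ℝ) < (2 : ℝ) ^ i1 := by positivity
  rcases le_total N (2 ^ i1) with hN2 | hN2
  · have h4 : (N : ℝ) ≤ (2 : ℝ) ^ i1 := by exact_mod_cast hN2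
    refine (sm_le w hw k N t ξ).trans ?_
    nlinarith
  · obtain ⟨i, hi1, hi2⟩ : ∃ i : ℕ, N ≤ 2 ^ i ∧ 2 ^ i ≤ 2 * N := by
      refine ⟨Nat.log 2 N + 1, (Nat.lt_pow_succ_log_self (by norm_num) N).le, ?_⟩
      have := Nat.pow_log_le_self 2 (show N ≠ 0 by omega)
      rw [pow_succ]
      omega
    have hii : i1 ≤ i := by
      have : 2 ^ i1 ≤ 2 ^ i := hN2.trans hi1
      exact (Nat.pow_le_pow_iff_right (by norm_num)).mp this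
    have h5 := hcon i hii
    have h6 : ‖sm w k N t ξ‖ ≤ (N : ℝ) ^ c := by
      by_contra h7
      push Not at h7
      exact h5 ⟨N, hi1, hi2, ξ, h7⟩
    nlinarith

/-- the flat bound almost everywhere, for one `ε` -/
theorem ae_flat (μ : Measure ℝ) [IsFiniteMeasure μ] (C β η : ℝ) (hμ : Dec μ C β) (w : ℕ → ℂ) (hw : ∀ n, ‖w n‖ ≤ 1)
    (k : ℕ) (hk : 3 ≤ k) (hη : 0 ≤ η) (hη4 : η ≤ 1 / 4) (hβ : 4 * η ≤ k * β) (ε : ℝ) (hε : 0 < ε) :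
    ∀ᵐ t ∂μ, ∃ K : ℝ, ∀ N : ℕ, 1 ≤ N → ∀ ξ : ℝ, ‖sm w k N t ξ‖ ≤ K * (N : ℝ) ^ (1 - η + ε) := by
  have hk0 : (0 : ℝ) < k := by exact_mod_cast (by omega : 0 < k)
  obtain ⟨b, hb⟩ : ∃ b : ℝ, b = 4 * η / k := ⟨_, rfl⟩
  have hb0 : 0 ≤ b := by rw [hb]; positivity
  have hkb : k * b = 4 * η := by rw [hb]; field_simp
  have hbβ : b ≤ β := by rw [hb, div_le_iff₀ hk0]; linarith
  have hμb : Dec μ |C| b := by
    intro m hm
    have hm1 : (1 : ℝ) ≤ m := by exact_mod_cast hm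
    refine (hμ m hm).trans ?_
    calc C * (m : ℝ) ^ (-β) ≤ |C| * (m : ℝ) ^ (-β) := mul_le_mul_of_nonneg_right (le_abs_self C) (by positivity)
      _ ≤ |C| * (m : ℝ) ^ (-b) := mul_le_mul_of_nonneg_left
          (Real.rpow_le_rpow_of_exponent_le hm1 (by linarith)) (abs_nonneg C)
  obtain ⟨A, hA0, hA⟩ := moment μ |C| b hb0 hμb k hk (by rw [hkb]; linarith)
  have h1 := ae_bad μ w k (1 - η + ε) (ε / 2) A (3 - k * b) (by linarith) (by linarith) (hA w hw)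
    (by rw [hkb]; linarith)
  filter_upwards [h1] with t ht
  exact flat_of w hw k (1 - η + ε) (by linarith) t ht

end Pool.Agent.K9h98.FD
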